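import Mathlib
import Pool.Agent.Helper47.SizeRamsey.Grid

/-!
Lower bound `(2^d - o(1)) n^d` for the size-Ramsey number of the `d`-dimensional grid graph.
-/

set_option autoImplicit false

open Pool.Agent.Helper47.SizeRamsey

namespace Pool.Agent.Results.MP_971383_co.ExponentialLowerBound

/-- For every `d ≥ 1` and `ε > 0`, for all large `n`, every finite graph `G` with `G → G_n^d`
has at least `(2^d - ε) n^d` edges. -/
theorem result (d : ℕ) (hd : 1 ≤ d) (ε : ℝ) (hε : 0 < ε) :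
    ∃ n₀ : ℕ, ∀ n : ℕ, n₀ ≤ n → ∀ (V : Type) [Fintype V] (G : SimpleGraph V),
      Arrows G (gridGraph d n) →
        ((2 : ℝ) ^ d - ε) * (n : ℝ) ^ d ≤ (G.edgeSet.ncard : ℝ) := by
  obtain ⟨d', rfl⟩ : ∃ d', d = d' + 1 := ⟨d - 1, by omega⟩
  exact lower_bound d' ε hε

end Pool.Agent.Results.MP_971383_co.ExponentialLowerBound
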