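import Mathlib
import Pool.Agent.SRL.Final

/-!
The size-Ramsey number of the `d`-dimensional grid graph is linear in its number of vertices.
-/

set_option autoImplicit false

open Pool.Agent.Helper47.SizeRamsey

namespace Pool.Agent.Results.MP_971383_co.LinearSizeRamsey

/-- The size-Ramsey number of `H` (two colours): the least number of edges of a finite graph `G`
with `G → H`. -/
noncomputable def sizeRamsey {W : Type} (H : SimpleGraph W) : ℕ :=
  sInf {m : ℕ | ∃ (V : Type) (_ : Fintype V) (G : SimpleGraph V),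
    Arrows G H ∧ G.edgeSet.ncard = m}

/-- For every `d ≥ 1` there is a constant `C` such that for every `n ≥ 1` some finite graph `G`
with at most `C n^d` edges satisfies `G → G_n^d`; in particular the size-Ramsey number of `G_n^d`
is at most `C n^d`. -/
theorem result (d : ℕ) (hd : 1 ≤ d) :
    ∃ C : ℕ, ∀ n : ℕ, 1 ≤ n →
      (∃ (V : Type) (_ : Fintype V) (G : SimpleGraph V),
        Arrows G (gridGraph d n) ∧ G.edgeSet.ncard ≤ C * n ^ d) ∧
      sizeRamsey (gridGraph d n) ≤ C * n ^ d := by
  obtain ⟨C, hC⟩ := Pool.Agent.SRL.linear_size_ramsey d hd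
  refine ⟨C, fun n hn => ⟨hC n hn, ?_⟩⟩
  obtain ⟨V, hV, G, h1, h2⟩ := hC n hn
  have h3 : G.edgeSet.ncard ∈ {m : ℕ | ∃ (V : Type) (_ : Fintype V) (G : SimpleGraph V),
      Arrows G (gridGraph d n) ∧ G.edgeSet.ncard = m} := ⟨V, hV, G, h1, rfl⟩
  exact (Nat.sInf_le h3).trans h2

end Pool.Agent.Results.MP_971383_co.LinearSizeRamsey
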